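import Mathlib
import Pool.Agent.Helper937.Szd2

/-!
# Spaces `X` such that `C_p(X)` maps continuously onto its square

If `C_p(X)` maps continuously onto `C_p(X) × C_p(X)` (for instance, if `X` is strongly
zero-dimensional) and every closed subspace of `C_p(X)` is separable, then `C_p(C_p(X))` and
its subspace `L_p(X)` are perfectly normal.
-/

set_option autoImplicit false

open Set Topology

namespace Pool.Agent.Results.MP_f50f0f_gt.ContinuousSquare

/-- `X` is strongly zero-dimensional: completely separated sets can be separated by a clopen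
set. -/
def StronglyZeroDim (X : Type) [TopologicalSpace X] : Prop :=
  ∀ f : X → ℝ, Continuous f → ∀ a b : ℝ, a < b →
    ∃ C : Set X, IsClopen C ∧ {x | f x ≤ a} ⊆ C ∧ C ⊆ {x | f x < b}

/-- **Theorem.** Let `X` be a Tychonoff space such that `C_p(X)` maps continuously onto
`C_p(X) × C_p(X)`; this is the case when `X` is strongly zero-dimensional.  If every closed
subspace of `C_p(X)` is separable, then `L_p(X)` is perfectly normal, and even the larger space
`C_p(C_p(X))` is perfectly normal. -/
theorem result :
    ∀ (X : Type) [TopologicalSpace X] [T35Space X],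
      (StronglyZeroDim X ∨
        ∃ Q : {f : X → ℝ | Continuous f} → {f : X → ℝ | Continuous f} × {f : X → ℝ | Continuous f},
          Continuous Q ∧ Function.Surjective Q) →
      (∀ S : Set ↥{f : X → ℝ | Continuous f}, IsClosed S → TopologicalSpace.SeparableSpace ↥S) →
      (NormalSpace ↥(Set.range (fun a : X →₀ ℝ => fun f : C(X, ℝ) => a.sum (fun x r => r * f x))) ∧
        ∀ s : Set ↥(Set.range (fun a : X →₀ ℝ => fun f : C(X, ℝ) => a.sum (fun x r => r * f x))),
          IsClosed s → IsGδ s) ∧
      (NormalSpace ↥{g : ↥{f : X → ℝ | Continuous f} → ℝ | Continuous g} ∧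
        ∀ s : Set ↥{g : ↥{f : X → ℝ | Continuous f} → ℝ | Continuous g},
          IsClosed s → IsGδ s) := by
  intro X _ _ hX hCS1
  have hsq : ∃ Q : Helper937.Szd.Cp X → Helper937.Szd.Cp X × Helper937.Szd.Cp X,
      Continuous Q ∧ Function.Surjective Q := by
    rcases hX with hX | hX
    · exact Helper937.Szd.exists_square X hX
    · exact hX
  have hne : Nonempty (Helper937.Szd.Cp X) := ⟨⟨fun _ => 0, continuous_const⟩⟩
  have hCS : ∀ n, Helper937.Szd.CS (Fin n → Helper937.Szd.Cp X) := by
    intro n
    obtain ⟨R, hR, hRs⟩ := Helper937.Szd.exists_power hsq n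
    exact Helper937.Szd.CS.image (Z := Helper937.Szd.Cp X) hCS1 R hR hRs
  constructor
  · apply Helper937.Szd.perfect_of_zero
    intro P hP
    let k : Helper937.Szd.Cp X → C(X, ℝ) := fun f => ⟨f.1, f.2⟩
    refine Helper937.Szd.zero_set (X := X)
      (E := ↥(Set.range (fun a : X →₀ ℝ => fun f : C(X, ℝ) => a.sum (fun x r => r * f x))))
      (fun ψ f => ψ.1 (k f)) ?_ ?_ hCS P hP
    · have h1 : IsInducing (fun (g : C(X, ℝ) → ℝ) (f : Helper937.Szd.Cp X) => g (k f)) := by
        let e : Helper937.Szd.Cp X ≃ C(X, ℝ) :=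
          ⟨k, fun f => ⟨f, f.continuous⟩, fun f => rfl, fun f => rfl⟩
        exact (Homeomorph.piCongrLeft (Y := fun _ : C(X, ℝ) => ℝ) e).symm.isInducing
      exact h1.comp IsInducing.subtypeVal
    · rintro ⟨_, a, rfl⟩
      show Continuous fun f : Helper937.Szd.Cp X => a.sum (fun x r => r * f.1 x)
      unfold Finsupp.sum
      exact continuous_finsetSum _ fun x _ =>
        continuous_const.mul ((continuous_apply x).comp continuous_subtype_val)
  · apply Helper937.Szd.perfect_of_zero
    intro P hP
    exact Helper937.Szd.zero_set (X := X)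
      (E := ↥{g : ↥{f : X → ℝ | Continuous f} → ℝ | Continuous g})
      (fun φ => φ.1) IsInducing.subtypeVal (fun φ => φ.2) hCS P hP

end Pool.Agent.Results.MP_f50f0f_gt.ContinuousSquare
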